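import Pool.Agent.Helper15.HS.GoalsC
import Pool.Agent.Helper27.HS.TRC
import Pool.Agent.Helper70.HS.KETP
import Pool.Agent.Helper70.HS.RHOI
import Pool.Agent.Helper89.HS.CMP

/-!
# HS-G AYT: existence of the twisted Kähler–Einstein metrics
-/

open Complex Metric Set Filter Topology MeasureTheory
open scoped ContDiff ComplexConjugate ComplexOrder Manifold Matrix

namespace Pool.Agent.Helper16.HS.AYTP

open Pool.Agent.Helper95.Lin Pool.Agent.Helper16.Abund Pool.Agent.Helper92.Orb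
  Pool.Agent.Helper10.SP Pool.Agent.Helper95.RK Pool.Agent.Helper57.HS Pool.Agent.Helper15.HS
  Pool.Agent.Helper89.HS

universe u

theorem her_ket {n : ℕ} {T : Set (Cn n)} {G : Type u} [Group G] {R : G → Cn n → Cn n → Prop}
    {H : Cn n → Matrix (Fin n) (Fin n) ℂ} (h : KEt T R H) : HerT T R H :=
  ⟨h.posDef, h.smooth, h.inv⟩

theorem chf_ket {n : ℕ} {T : Set (Cn n)} {G : Type u} [Group G] {R : G → Cn n → Cn n → Prop}
    {H : Cn n → Matrix (Fin n) (Fin n) ℂ} (h : KEt T R H) : CHF H T :=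
  ⟨h.smooth, fun x hx => (h.posDef x hx).isHermitian, h.closed⟩

/-- Lower bound of an invariant Hermitian form field. -/
theorem low_bound {n : ℕ} {T : Set (Cn n)} {G : Type u} [Group G] {R : G → Cn n → Cn n → Prop}
    {H Q : Cn n → Matrix (Fin n) (Fin n) ℂ} (hH : KEt T R H) (hQ : CHF Q T) (hQi : InvH R Q) :
    ∃ c : ℝ, ∀ x ∈ T, (Q x - ((c : ℝ) : ℂ) • H x).PosSemidef := by
  obtain ⟨C, hCT, hC, hcov⟩ := hH.et.coc
  have hK : IsCompact (C ×ˢ sphere (0 : Cn n) 1) := hC.prod (isCompact_sphere _ _)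
  have hne : ∀ p ∈ C ×ˢ sphere (0 : Cn n) 1, p.2 ≠ 0 := by
    rintro p ⟨_, hp⟩ h0
    rw [h0] at hp
    simp at hp
  have hHp : ∀ p ∈ C ×ˢ sphere (0 : Cn n) 1, 0 < (hermi (H p.1) p.2 p.2).re := fun p hp =>
    (Complex.pos_iff.1 (hermi_pos (hH.posDef _ (hCT hp.1)) (hne p hp))).1
  have hcont : ContinuousOn (fun p : Cn n × Cn n =>
      (hermi (Q p.1) p.2 p.2).re / (hermi (H p.1) p.2 p.2).re) (C ×ˢ sphere (0 : Cn n) 1) :=
    (continuousOn_hermi hQ.smooth C hCT _).div (continuousOn_hermi hH.smooth C hCT _)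
      (fun p hp => (hHp p hp).ne')
  obtain ⟨c, hmin⟩ : ∃ c : ℝ, ∀ p ∈ C ×ˢ sphere (0 : Cn n) 1,
      c * (hermi (H p.1) p.2 p.2).re ≤ (hermi (Q p.1) p.2 p.2).re := by
    rcases (C ×ˢ sphere (0 : Cn n) 1).eq_empty_or_nonempty with he | hne'
    · refine ⟨1, fun p hp => ?_⟩
      rw [he] at hp
      exact absurd hp (notMem_empty _)
    · obtain ⟨p0, hp0, hp0min⟩ := hK.exists_isMinOn hne' hcont
      refine ⟨(hermi (Q p0.1) p0.2 p0.2).re / (hermi (H p0.1) p0.2 p0.2).re, fun p hp => ?_⟩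
      have h1 := hp0min hp
      exact (le_div_iff₀ (hHp p hp)).1 h1
  have hall : ∀ x ∈ C, ∀ e : Cn n,
      c * (hermi (H x) e e).re ≤ (hermi (Q x) e e).re := by
    intro x hx e
    rcases eq_or_ne e 0 with rfl | he
    · simp [hermi]
    · have hn : 0 < ‖e‖ := norm_pos_iff.2 he
      have h1 := hmin (x, ((‖e‖⁻¹ : ℝ) : ℂ) • e) ⟨hx, by
        rw [mem_sphere_zero_iff_norm, norm_smul, Complex.norm_real, norm_inv, norm_norm,
          inv_mul_cancel₀ hn.ne']⟩
      simp only [hermi_smul, Complex.re_ofReal_mul] at h1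
      have h2 : 0 < (‖e‖⁻¹) ^ 2 := by positivity
      have h3 : (‖e‖⁻¹) ^ 2 * (c * (hermi (H x) e e).re) ≤
          (‖e‖⁻¹) ^ 2 * (hermi (Q x) e e).re := by linarith
      exact le_of_mul_le_mul_left h3 h2
  refine ⟨c, fun x hx => ?_⟩
  obtain ⟨γ, y, hy, hR⟩ := hcov x hx
  obtain ⟨τ, U, W, hU, hW, hxU, hyW, hUT, hWT, hdiff, hinj, hmaps, hdet, hiff⟩ :=
    hH.et.loc γ x y hR
  have hArr : Arr R U τ := ⟨hU, hdiff, γ, fun x' hx' =>
    (hiff x' hx' (τ x') (hmaps hx')).2 rfl⟩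
  have hτx : τ x = y := ((hiff x hxU y hyW).1 hR).symm
  have hbound : ∀ e : Cn n, c * (hermi (H x) e e).re ≤ (hermi (Q x) e e).re := by
    intro e
    have h1 := hH.inv U τ hArr x hxU e e
    have h2 := hQi U τ hArr x hxU e e
    rw [← h1, ← h2, hτx]
    exact hall y hy _
  have hHx := (hH.posDef x hx).isHermitian
  have hQx := hQ.herm x hx
  have hherm : (Q x - ((c : ℝ) : ℂ) • H x).IsHermitian := by
    refine hQx.sub ?_
    rw [Matrix.IsHermitian, Matrix.conjTranspose_smul, hHx.eq]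
    congr 1
    exact Complex.conj_ofReal c
  refine Matrix.PosSemidef.of_dotProduct_mulVec_nonneg hherm fun w => ?_
  rw [star_dot_hermi, hermi_sub]
  have hreal : ∀ A : Matrix (Fin n) (Fin n) ℂ, A.IsHermitian → ∀ e : Cn n,
      (hermi A e e).im = 0 := by
    intro A hA e
    rw [hermi_star]
    exact hA.im_star_dotProduct_mulVec_self _
  have h1 := hbound (star w)
  have h2 := hreal _ hHx (star w)
  have h3 := hreal _ hQx (star w)
  rw [Complex.nonneg_iff]
  constructor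
  · rw [Complex.sub_re, Complex.re_ofReal_mul]
    linarith
  · rw [Complex.sub_im, Complex.im_ofReal_mul, h2, h3]
    simp

/-- Linear combinations. -/
theorem lin_comb {n : ℕ} {T : Set (Cn n)} {G : Type u} [Group G] {R : G → Cn n → Cn n → Prop}
    {H Q : Cn n → Matrix (Fin n) (Fin n) ℂ} (hH : KEt T R H) (hQ : CHF Q T) (hQi : InvH R Q)
    (c : ℝ) (hpos : ∀ x ∈ T, (Q x - (c : ℂ) • H x).PosDef) :
    KEt T R (fun x => Q x - (c : ℂ) • H x) := by
  have hT := hH.et.isOpen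
  refine ⟨hH.et, hpos, ?_, ?_, ?_⟩
  · intro i j
    simp only [Matrix.sub_apply, Matrix.smul_apply, smul_eq_mul]
    exact (hQ.smooth i j).sub (contDiffOn_const.mul (hH.smooth i j))
  · intro x hx i j l
    have hd : ∀ i j, DifferentiableAt ℝ (fun y => Q y i j) x := fun i j =>
      ((hQ.smooth i j).contDiffAt (hT.mem_nhds hx)).differentiableAt (by simp)
    have hd' : ∀ i j, DifferentiableAt ℝ (fun y => H y i j) x := fun i j =>
      ((hH.smooth i j).contDiffAt (hT.mem_nhds hx)).differentiableAt (by simp)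
    have e : ∀ i j l, cd l (fun y => (Q y - (c : ℂ) • H y) i j) x =
        cd l (fun y => Q y i j) x - (c : ℂ) * cd l (fun y => H y i j) x := by
      intro i j l
      simp only [Matrix.sub_apply, Matrix.smul_apply, smul_eq_mul]
      unfold cd
      rw [fderiv_fun_sub (hd i j) ((hd' i j).const_mul _), fderiv_const_mul (hd' i j)]
      simp only [sub_apply, smul_apply, smul_eq_mul]
      ring
    rw [e, e, hQ.closed x hx i j l, hH.closed x hx i j l]
  · intro U τ hτ x hx u v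
    rw [hermi_sub, hermi_sub, hQi U τ hτ x hx u v, hH.inv U τ hτ x hx u v]

/-- A small multiple can be subtracted. -/
theorem sub_posDef {n : ℕ} {Q H : Matrix (Fin n) (Fin n) ℂ} (hQ : Q.PosDef) (hH : H.PosDef)
    {s : ℝ} (hs : 0 ≤ s) (h : s * (Matrix.trace (H * Q⁻¹)).re < 1) :
    (Q - (s : ℂ) • H).PosDef := by
  obtain ⟨P, P', μ, hPP, hPP', hQe, hYe⟩ := Helper27.HS.trc_simul Q H hQ hH.isHermitian
  have hμ : ∀ i, 0 ≤ μ i := by
    intro i
    exact Helper27.HS.trc_posSemidef P P' μ hPP' (hYe ▸ hH.posSemidef) i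
  have hinv : Q⁻¹ = P'ᴴ * P' := by
    apply Matrix.inv_eq_left_inv
    calc P'ᴴ * P' * Q = P'ᴴ * (P' * P) * Pᴴ := by rw [hQe]; simp only [Matrix.mul_assoc]
      _ = (P * P')ᴴ := by rw [hPP', Matrix.mul_one, Matrix.conjTranspose_mul]
      _ = 1 := by rw [hPP, Matrix.conjTranspose_one]
  have htr : Matrix.trace (H * Q⁻¹) = ((∑ i, μ i : ℝ) : ℂ) := by
    rw [Matrix.trace_mul_comm, hinv, hYe]
    have e1 : P'ᴴ * P' * (P * Matrix.diagonal (fun i => (μ i : ℂ)) * Pᴴ) =
        P'ᴴ * ((P' * P) * Matrix.diagonal (fun i => (μ i : ℂ)) * Pᴴ) := by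
      simp only [Matrix.mul_assoc]
    rw [e1, hPP', Matrix.one_mul, Matrix.trace_mul_comm, Matrix.mul_assoc,
      ← Matrix.conjTranspose_mul, hPP', Matrix.conjTranspose_one, Matrix.mul_one,
      Matrix.trace_diagonal]
    push_cast
    rfl
  rw [htr, Complex.ofReal_re] at h
  have hlt : ∀ i, 0 < 1 - s * μ i := by
    intro i
    have h1 : μ i ≤ ∑ j, μ j := Finset.single_le_sum (fun j _ => hμ j) (Finset.mem_univ i)
    have h2 := mul_le_mul_of_nonneg_left h1 hs
    linarith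
  have e : Q - (s : ℂ) • H =
      P * Matrix.diagonal (fun i => ((1 - s * μ i : ℝ) : ℂ)) * Pᴴ := by
    have e2 : Matrix.diagonal (fun i => ((1 - s * μ i : ℝ) : ℂ)) =
        (1 : Matrix (Fin n) (Fin n) ℂ) - (s : ℂ) • Matrix.diagonal (fun i => (μ i : ℂ)) := by
      ext i j
      by_cases hij : i = j
      · subst hij
        simp
      · simp [hij]
    rw [e2, Matrix.mul_sub, Matrix.sub_mul, Matrix.mul_one, ← hQe, Matrix.mul_smul,
      Matrix.smul_mul, ← hYe]
  rw [e]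
  have hd : (Matrix.diagonal (fun i => ((1 - s * μ i : ℝ) : ℂ))).PosDef := by
    rw [Matrix.posDef_diagonal_iff]
    intro i
    exact Complex.zero_lt_real.2 (hlt i)
  refine hd.mul_mul_conjTranspose_same (B := P) ?_
  intro a b hab
  have h1 := congrArg (fun z => Matrix.vecMul z P') hab
  simpa [Matrix.vecMul_vecMul, hPP] using h1

/-- One application of the theorem of Aubin and Yau. -/
theorem step (hAYG : S_AYG.{u}) (hRHOI : S_RHOI.{u}) {n : ℕ} {T : Set (Cn n)} {G : Type u}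
    [Group G] {R : G → Cn n → Cn n → Prop} {B X : Cn n → Matrix (Fin n) (Fin n) ℂ}
    (hB : KEt T R B) (hX : KEt T R X) :
    ∃ Q, KEt T R Q ∧ ∀ x ∈ T, rho Q x = rho B x + (Q x - X x) := by
  have hT := hB.et.isOpen
  obtain ⟨u, hu, hQ, hdet⟩ := hAYG T R B X hB hX (fun _ => 0)
    ⟨contDiffOn_const, fun _ _ _ _ => rfl⟩
  refine ⟨_, hQ, fun x hx => ?_⟩
  have h1 := ((hRHOI T R B hB.et (her_ket hB)).2.2.2.2 _ (her_ket hQ)).2 x hx
  rw [h1]
  have h2 : LM (fun y => ld (fun x => X x + LM u x) y - ld B y) x = LM u x := by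
    refine Helper70.HS.LM_congr_nhds ?_
    filter_upwards [hT.mem_nhds hx] with y hy
    unfold ld
    have h3 : 0 < (B y).det.re := (Complex.pos_iff.1 (hB.posDef y hy).det_pos).1
    rw [hdet y hy, add_zero, Real.log_mul (Real.exp_pos _).ne' h3.ne', Real.log_exp]
    ring
  rw [h2]
  congr 1
  abel

theorem ayt (hAYG : S_AYG.{u}) (hUB : S_UB.{u}) (hSGN : S_SGN) (hRHOI : S_RHOI.{u}) :
    S_AYT.{u} := by
  intro n T G _ R H hH hN
  have hT := hH.et.isOpen
  have hRBC : RBC H T := (hSGN T hT H hH.posDef (chf_ket hH) hN).2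
  obtain ⟨hr1, hr2, -, -, -⟩ := hRHOI T R H hH.et (her_ket hH)
  obtain ⟨c, hc⟩ := low_bound hH hr1 hr2
  -- (1) large parameters
  have hlarge : ∀ ε : ℝ, max 1 (1 - c) ≤ ε → ∃ Q, TKE T R H ε Q := by
    intro ε hε
    have hε1 : 1 - c ≤ ε := le_trans (le_max_right _ _) hε
    have hpos : ∀ x ∈ T, (rho H x - ((-ε : ℝ) : ℂ) • H x).PosDef := by
      intro x hx
      have e : rho H x - ((-ε : ℝ) : ℂ) • H x =
          (rho H x - (c : ℂ) • H x) + ((c + ε : ℝ) : ℂ) • H x := by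
        push_cast
        module
      rw [e]
      refine Matrix.PosDef.posSemidef_add (hc x hx) ?_
      exact (hH.posDef x hx).smul (Complex.zero_lt_real.2 (by linarith))
    have hX := lin_comb hH hr1 hr2 (-ε) hpos
    obtain ⟨Q, hQ, hQe⟩ := step hAYG hRHOI hH hX
    refine ⟨Q, hQ, fun x hx => ?_⟩
    rw [hQe x hx]
    push_cast
    module
  -- (2) one step
  set q : ℝ := 1 - 1 / (2 * ((n : ℝ) + 1)) with hq
  have hn0 : (0 : ℝ) ≤ n := Nat.cast_nonneg n
  have hq0 : 0 < q := by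
    rw [hq, sub_pos, div_lt_one (by positivity)]
    linarith
  have hq1 : q < 1 := by
    rw [hq]
    have : 0 < 1 / (2 * ((n : ℝ) + 1)) := by positivity
    linarith
  have hstep : ∀ ε ε' : ℝ, 0 < ε → 0 < ε' → q * ε ≤ ε' → ε' ≤ ε → (∃ Q, TKE T R H ε Q) →
      ∃ Q, TKE T R H ε' Q := by
    rintro ε ε' hε hε' h1 h2 ⟨Q, hQ⟩
    have hub := hUB T R Q H (fun x => (ε : ℂ) • H x) hQ.ket (her_ket hH) hRBC hQ.eq ε hε
      (fun x hx => by rw [sub_self]; exact Matrix.PosSemidef.zero)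
    have hpos : ∀ x ∈ T, (Q x - ((ε - ε' : ℝ) : ℂ) • H x).PosDef := by
      intro x hx
      refine sub_posDef (hQ.ket.posDef x hx) (hH.posDef x hx) (by linarith) ?_
      have h3 := hub x hx
      have h4 : ε - ε' ≤ ε * (1 / (2 * ((n : ℝ) + 1))) := by
        rw [hq] at h1
        nlinarith
      calc (ε - ε') * (Matrix.trace (H x * (Q x)⁻¹)).re ≤ (ε - ε') * (n / ε) :=
            mul_le_mul_of_nonneg_left h3 (by linarith)
        _ ≤ (ε * (1 / (2 * ((n : ℝ) + 1)))) * (n / ε) :=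
            mul_le_mul_of_nonneg_right h4 (by positivity)
        _ = n / (2 * ((n : ℝ) + 1)) := by field_simp
        _ < 1 := by
            rw [div_lt_one (by positivity)]
            linarith
    have hX := lin_comb hH (chf_ket hQ.ket) hQ.ket.inv (ε - ε') hpos
    obtain ⟨Q', hQ', hQe⟩ := step hAYG hRHOI hQ.ket hX
    refine ⟨Q', hQ', fun x hx => ?_⟩
    rw [hQe x hx, hQ.eq x hx]
    push_cast
    module
  -- (3) induction
  set ε₀ : ℝ := max 1 (1 - c) with hε₀
  have hε₀pos : 0 < ε₀ := lt_of_lt_of_le one_pos (le_max_left _ _)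
  have hind : ∀ m : ℕ, ∀ ε : ℝ, 0 < ε → q ^ m * ε₀ ≤ ε → ∃ Q, TKE T R H ε Q := by
    intro m
    induction m with
    | zero =>
      intro ε _ h
      rw [pow_zero, one_mul] at h
      exact hlarge ε h
    | succ m ih =>
      intro ε hε h
      rcases le_or_gt (q ^ m * ε₀) ε with h1 | h1
      · exact ih ε hε h1
      · have h2 : 0 < q ^ m * ε₀ := by positivity
        refine hstep (q ^ m * ε₀) ε h2 hε ?_ h1.le (ih _ h2 le_rfl)
        calc q * (q ^ m * ε₀) = q ^ (m + 1) * ε₀ := by ring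
          _ ≤ ε := h
  intro ε hε
  obtain ⟨m, hm⟩ := exists_pow_lt_of_lt_one (show 0 < ε / ε₀ by positivity) hq1
  exact hind m ε hε (by
    have := (lt_div_iff₀ hε₀pos).1 hm
    exact this.le)

end Pool.Agent.Helper16.HS.AYTP
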