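import Pool.Agent.Helper95.HS.GoalsB

/-!
# HS AAPS: positivity and the Cauchy-Schwarz inequality for the gradient term
-/

open Complex Metric Set Filter Topology MeasureTheory
open scoped ContDiff ComplexConjugate ComplexOrder Manifold Matrix

namespace Pool.Agent.Helper16.HS

open Pool.Agent.Helper95.HS

theorem frob2 {n : ℕ} (V W : Matrix (Fin n) (Fin n) ℂ) :
    Matrix.trace (V * Wᴴ) = ∑ p : Fin n × Fin n, V p.1 p.2 * conj (W p.1 p.2) := by
  rw [Fintype.sum_prod_type]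
  rfl

theorem frob1 {n : ℕ} (V : Matrix (Fin n) (Fin n) ℂ) :
    Matrix.trace (V * Vᴴ) = ((∑ p : Fin n × Fin n, ‖V p.1 p.2‖ ^ 2 : ℝ) : ℂ) := by
  rw [frob2]
  push_cast
  refine Finset.sum_congr rfl fun p _ => ?_
  rw [Complex.mul_conj']

theorem frob_cs {n : ℕ} (V W : Matrix (Fin n) (Fin n) ℂ) :
    ‖Matrix.trace (V * Wᴴ)‖ ^ 2 ≤ (∑ p : Fin n × Fin n, ‖W p.1 p.2‖ ^ 2) *
      ∑ p : Fin n × Fin n, ‖V p.1 p.2‖ ^ 2 := by
  rw [frob2, mul_comm]
  have h1 : ‖∑ p : Fin n × Fin n, V p.1 p.2 * conj (W p.1 p.2)‖ ≤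
      ∑ p : Fin n × Fin n, ‖V p.1 p.2‖ * ‖W p.1 p.2‖ := by
    refine (norm_sum_le _ _).trans (le_of_eq ?_)
    refine Finset.sum_congr rfl fun p _ => ?_
    rw [norm_mul, RCLike.norm_conj]
  calc ‖∑ p : Fin n × Fin n, V p.1 p.2 * conj (W p.1 p.2)‖ ^ 2 ≤
      (∑ p : Fin n × Fin n, ‖V p.1 p.2‖ * ‖W p.1 p.2‖) ^ 2 :=
        pow_le_pow_left₀ (norm_nonneg _) h1 2
    _ ≤ _ := Finset.sum_mul_sq_le_sq_mul_sq _ _ _

/-- Sums of the form `∑ (Sᴴ S) l k F k l`. -/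
theorem sum_split {n : ℕ} (S : Matrix (Fin n) (Fin n) ℂ) (F : Fin n → Fin n → ℂ) :
    ∑ k, ∑ l, (Sᴴ * S) l k * F k l = ∑ a, ∑ k, ∑ l, S a k * (conj (S a l) * F k l) := by
  have : ∀ k l, (Sᴴ * S) l k * F k l = ∑ a, S a k * (conj (S a l) * F k l) := by
    intro k l
    rw [Matrix.mul_apply, Finset.sum_mul]
    refine Finset.sum_congr rfl fun a _ => ?_
    rw [Matrix.conjTranspose_apply]
    change conj (S a l) * S a k * F k l = _
    ring
  simp only [this]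
  symm
  rw [Finset.sum_comm]
  refine Finset.sum_congr rfl fun k _ => ?_
  rw [Finset.sum_comm]

theorem aaps : S_AAPS := by
  intro n Q Y A hQ hY
  obtain ⟨S, hS⟩ : ∃ S : Matrix (Fin n) (Fin n) ℂ, Q⁻¹ = Sᴴ * S := by
    open scoped MatrixOrder in
    exact CStarAlgebra.nonneg_iff_eq_star_mul_self.mp hQ.inv.posSemidef.nonneg
  obtain ⟨B, hB⟩ : ∃ B : Matrix (Fin n) (Fin n) ℂ, Y = Bᴴ * B := by
    open scoped MatrixOrder in
    exact CStarAlgebra.nonneg_iff_eq_star_mul_self.mp hY.nonneg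
  set Z : Fin n → Matrix (Fin n) (Fin n) ℂ := fun a => ∑ k, S a k • A k with hZ
  set V : Fin n → Matrix (Fin n) (Fin n) ℂ := fun a => S * Z a * Bᴴ with hV
  -- the gradient term
  have e1 : ∑ k, ∑ l, Q⁻¹ l k * Matrix.trace (A k * Y * (A l)ᴴ * Q⁻¹) =
      ∑ a, Matrix.trace (V a * (V a)ᴴ) := by
    have h1 : ∀ a, Matrix.trace (V a * (V a)ᴴ) = Matrix.trace (Z a * Y * (Z a)ᴴ * Q⁻¹) := by
      intro a
      have : V a * (V a)ᴴ = S * (Z a * Y * (Z a)ᴴ * Sᴴ) := by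
        simp only [hV, hB, Matrix.conjTranspose_mul, Matrix.conjTranspose_conjTranspose,
          Matrix.mul_assoc]
      rw [this, Matrix.trace_mul_comm, hS]
      simp only [Matrix.mul_assoc]
    have h2 : ∀ a, Matrix.trace (Z a * Y * (Z a)ᴴ * Q⁻¹) =
        ∑ k, ∑ l, S a k * (conj (S a l) * Matrix.trace (A k * Y * (A l)ᴴ * Q⁻¹)) := by
      intro a
      simp only [hZ, Matrix.conjTranspose_sum, Matrix.conjTranspose_smul, Matrix.sum_mul,
        Matrix.smul_mul, Matrix.mul_smul, Matrix.trace_sum, Matrix.trace_smul,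
        smul_eq_mul, Finset.mul_sum]
      rw [Finset.sum_comm]
      refine Finset.sum_congr rfl fun k _ => Finset.sum_congr rfl fun l _ => ?_
      change conj (S a l) * (S a k * _) = _
      ring
    simp only [h1, h2]
    conv_lhs => rw [hS]
    rw [sum_split]
    simp only [hS]
  have e2 : ∑ a, Matrix.trace (V a * (V a)ᴴ) =
      ((∑ a, ∑ p : Fin n × Fin n, ‖V a p.1 p.2‖ ^ 2 : ℝ) : ℂ) := by
    rw [Complex.ofReal_sum]
    exact Finset.sum_congr rfl fun a _ => frob1 _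
  have e3 : Matrix.trace (Y * Q⁻¹) =
      ((∑ p : Fin n × Fin n, ‖(S * Bᴴ) p.1 p.2‖ ^ 2 : ℝ) : ℂ) := by
    rw [← frob1]
    have : S * Bᴴ * (S * Bᴴ)ᴴ = S * (Y * Sᴴ) := by
      simp only [hB, Matrix.conjTranspose_mul, Matrix.conjTranspose_conjTranspose,
        Matrix.mul_assoc]
    rw [this, Matrix.trace_mul_comm S, hS, Matrix.mul_assoc]
  have e4 : ∑ k, ∑ l, Q⁻¹ l k * (Matrix.trace (A k * Y * Q⁻¹) *
      conj (Matrix.trace (A l * Y * Q⁻¹))) =
      ((∑ a, ‖Matrix.trace (V a * (S * Bᴴ)ᴴ)‖ ^ 2 : ℝ) : ℂ) := by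
    have h1 : ∀ a, Matrix.trace (V a * (S * Bᴴ)ᴴ) = ∑ k, S a k * Matrix.trace (A k * Y * Q⁻¹) := by
      intro a
      have : V a * (S * Bᴴ)ᴴ = S * (Z a * Y * Sᴴ) := by
        simp only [hV, hB, Matrix.conjTranspose_mul, Matrix.conjTranspose_conjTranspose,
          Matrix.mul_assoc]
      rw [this, Matrix.trace_mul_comm]
      have : Z a * Y * Sᴴ * S = Z a * Y * Q⁻¹ := by
        rw [hS]
        simp only [Matrix.mul_assoc]
      rw [this]
      simp only [hZ, Matrix.sum_mul, Matrix.smul_mul, Matrix.trace_sum, Matrix.trace_smul,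
        smul_eq_mul]
    have h2 : ∑ k, ∑ l, Q⁻¹ l k * (Matrix.trace (A k * Y * Q⁻¹) *
        conj (Matrix.trace (A l * Y * Q⁻¹))) = ∑ a, ∑ k, ∑ l, S a k * (conj (S a l) *
          (Matrix.trace (A k * Y * Q⁻¹) * conj (Matrix.trace (A l * Y * Q⁻¹)))) := by
      have h3 := sum_split S (fun k l => Matrix.trace (A k * Y * Q⁻¹) *
        conj (Matrix.trace (A l * Y * Q⁻¹)))
      rw [← h3, ← hS]
    rw [h2, Complex.ofReal_sum]
    refine Finset.sum_congr rfl fun a _ => ?_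
    rw [Complex.ofReal_pow, ← Complex.mul_conj', h1, map_sum, Finset.sum_mul_sum]
    refine Finset.sum_congr rfl fun k _ => Finset.sum_congr rfl fun l _ => ?_
    rw [map_mul]
    ring
  refine ⟨?_, ?_, ?_⟩
  · rw [e1, e2, Complex.ofReal_im]
  · rw [e1, e2, Complex.ofReal_re]
    exact Finset.sum_nonneg fun a _ => Finset.sum_nonneg fun p _ => sq_nonneg _
  · rw [e4, e1, e2, e3, Complex.ofReal_re, Complex.ofReal_re, Complex.ofReal_re, Finset.mul_sum]
    exact Finset.sum_le_sum fun a _ => frob_cs _ _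

end Pool.Agent.Helper16.HS
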