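import Pool.Agent.Helper95.HS.GoalsB

/-!
# HS VNB: bounds for `VN`
-/

open Complex Metric Set Filter Topology MeasureTheory
open scoped ContDiff ComplexConjugate ComplexOrder Manifold Matrix

namespace Pool.Agent.Helper16.HS

open Pool.Agent.Helper95.Lin Pool.Agent.Helper16.Abund Pool.Agent.Helper10.SP
  Pool.Agent.Helper95.RK Pool.Agent.Helper57.HS Pool.Agent.Helper95.HS

universe u

/-- The factorization of the determinant. -/
theorem det_fac {n k : ℕ} (P H ρ : Matrix (Fin n) (Fin n) ℂ) (hP : P * P = P) (hρ : P * ρ = 0)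
    (hd : ∀ t : ℂ, (1 + t • P).det = (1 + t) ^ k) (s : ℝ) :
    (ρ + (s : ℂ) • H).det.re = s ^ k * (ρ + P * H + (s : ℂ) • ((1 - P) * H)).det.re := by
  have e1 : ρ + (s : ℂ) • H =
      (1 + ((s : ℂ) - 1) • P) * (ρ + P * H + (s : ℂ) • ((1 - P) * H)) := by
    have h1 : P * (P * H) = P * H := by rw [← Matrix.mul_assoc, hP]
    have h2 : P * ((1 - P) * H) = 0 := by
      rw [Matrix.sub_mul, Matrix.one_mul, Matrix.mul_sub, h1, sub_self]
    rw [Matrix.add_mul, Matrix.one_mul, Matrix.smul_mul, Matrix.mul_add, Matrix.mul_add, hρ,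
      Matrix.mul_smul, h1, h2, Matrix.sub_mul, Matrix.one_mul]
    module
  rw [e1, Matrix.det_mul, hd]
  have e2 : (1 + ((s : ℂ) - 1)) ^ k = ((s ^ k : ℝ) : ℂ) := by
    push_cast
    ring
  rw [e2, Complex.re_ofReal_mul]

theorem vnb (hPARF : S_PARF.{u}) (hDETI : S_DETI.{u}) (hLMF : S_LMF) : S_VNB.{u} := by
  intro n T G _ R H hH κ hκ k P hP
  have hT := hH.et.isOpen
  obtain ⟨-, -, -, hPr, -, hdet, -, -⟩ := hPARF T R H hH k P hP
  -- the relation with `VolP`
  have hrel : ∀ s : ℝ, VolP T κ H s = s ^ k * VN T κ H P s := by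
    intro s
    unfold VolP VN vol
    rw [← integral_const_mul]
    refine setIntegral_congr_fun hT.measurableSet fun x hx => ?_
    simp only
    rw [det_fac (P x) (H x) (rho H x) (hP.proj x hx) (hPr x hx) (hdet x hx) s]
    ring
  obtain ⟨r, hr, hlim⟩ := hP.vol κ hκ
  have hlim' : Tendsto (fun s : ℝ => VN T κ H P s) (𝓝[>] 0) (𝓝 r) := by
    refine hlim.congr' ?_
    filter_upwards [self_mem_nhdsWithin] with s hs
    have hs' : s ≠ 0 := (mem_Ioi.1 hs).ne'
    rw [hrel s, mul_div_cancel_left₀ _ (pow_ne_zero k hs')]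
  have hev : ∀ᶠ s in 𝓝[>] (0 : ℝ), r / 2 ≤ VN T κ H P s :=
    (hlim'.eventually (lt_mem_nhds (by linarith : r / 2 < r))).mono fun s hs => le_of_lt hs
  obtain ⟨δ, hδ, hδs⟩ := mem_nhdsGT_iff_exists_Ioo_subset.1 hev
  -- the upper bound
  have hld : ContDiffOn ℝ ∞ (ld H) T := by
    have h1 := hDETI T R H hH
    unfold ld
    exact h1.2.1.log fun x hx => (h1.1 x hx).2.1.ne'
  have hρc : ∀ i j, ContinuousOn (fun x => rho H x i j) T := fun i j =>
    ((hLMF T hT (ld H) hld).1 i j).continuousOn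
  have hPc : ∀ i j, ContinuousOn (fun x => P x i j) T := fun i j => (hP.holo i j).continuousOn
  have hHc : ∀ i j, ContinuousOn (fun x => H x i j) T := fun i j => (hH.smooth i j).continuousOn
  set K := tsupport κ with hKdef
  have hKc : IsCompact K := hκ.test.2.1
  have hKT : K ⊆ T := hκ.test.2.2
  have hMat : ContinuousOn (fun p : Cn n × ℝ =>
      rho H p.1 + P p.1 * H p.1 + ((p.2 : ℝ) : ℂ) • ((1 - P p.1) * H p.1)) (K ×ˢ Icc (0 : ℝ) 3) := by
    have hf : ∀ f : Cn n → ℂ, ContinuousOn f T →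
        ContinuousOn (fun p : Cn n × ℝ => f p.1) (K ×ˢ Icc (0 : ℝ) 3) := by
      intro f hf
      exact hf.comp continuousOn_fst fun p hp => hKT hp.1
    refine continuousOn_pi.2 fun i => continuousOn_pi.2 fun j => ?_
    simp only [Matrix.add_apply, Matrix.smul_apply, Matrix.mul_apply, Matrix.sub_apply, smul_eq_mul]
    refine ContinuousOn.add (ContinuousOn.add (hf _ (hρc i j)) ?_) ?_
    · exact continuousOn_finsetSum _ fun m _ => (hf _ (hPc i m)).mul (hf _ (hHc m j))
    · refine ContinuousOn.mul ?_ ?_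
      · exact (Complex.continuous_ofReal.comp continuous_snd).continuousOn
      · exact continuousOn_finsetSum _ fun m _ =>
          (continuousOn_const.sub (hf _ (hPc i m))).mul (hf _ (hHc m j))
  have hcont : ContinuousOn (fun p : Cn n × ℝ => κ p.1 *
      (rho H p.1 + P p.1 * H p.1 + ((p.2 : ℝ) : ℂ) • ((1 - P p.1) * H p.1)).det.re)
      (K ×ˢ Icc (0 : ℝ) 3) := by
    have h1 : Continuous fun M : Matrix (Fin n) (Fin n) ℂ => M.det.re :=
      Complex.continuous_re.comp continuous_id.matrix_det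
    exact ((hκ.test.1.continuous.comp continuous_fst).continuousOn).mul
      (h1.comp_continuousOn hMat)
  obtain ⟨M, hM⟩ := (hKc.prod isCompact_Icc).exists_bound_of_continuousOn hcont
  have hub : ∀ s : ℝ, 0 ≤ s → s ≤ 3 → VN T κ H P s ≤ M * volume.real K := by
    intro s hs0 hs3
    have e1 : VN T κ H P s = ∫ x in K, κ x *
        (rho H x + P x * H x + (s : ℂ) • ((1 - P x) * H x)).det.re := by
      unfold VN vol
      refine setIntegral_eq_of_subset_of_forall_sdiff_eq_zero hT.measurableSet hKT ?_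
      intro x hx
      have : κ x = 0 := image_eq_zero_of_notMem_tsupport hx.2
      rw [this, zero_mul]
    rw [e1]
    refine (le_abs_self _).trans ?_
    rw [← Real.norm_eq_abs]
    refine norm_setIntegral_le_of_norm_le_const hKc.measure_lt_top ?_
    intro x hx
    exact hM (x, s) ⟨hx, hs0, hs3⟩
  refine ⟨min 1 (δ / 2), r / 2, M * volume.real K, ?_, min_le_left _ _, by linarith, ?_, hub⟩
  · exact lt_min one_pos (half_pos hδ)
  · intro s hs0 hs
    refine hδs ⟨hs0, ?_⟩
    have h1 : s ≤ δ / 2 := hs.trans (min_le_right _ _)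
    have h2 : (0 : ℝ) < δ := hδ
    linarith

end Pool.Agent.Helper16.HS
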