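import Pool.Agent.Helper15.HS.GoalsC

/-!
# HS-C SGN: Royden's lemma
-/

open Complex Metric Set Filter Topology MeasureTheory
open scoped ContDiff ComplexConjugate ComplexOrder Manifold Matrix

namespace Pool.Agent.Helper16.HS.SGNP

open Pool.Agent.Helper95.Lin Pool.Agent.Helper16.Abund Pool.Agent.Helper92.Orb
  Pool.Agent.Helper10.SP Pool.Agent.Helper95.RK Pool.Agent.Helper57.HS Pool.Agent.Helper15.HS

/-- The quartic form. -/
noncomputable def QF {n : ℕ} (R : Fin n → Fin n → Fin n → Fin n → ℂ) (u v w z : Fin n → ℂ) : ℂ :=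
  ∑ i, ∑ j, ∑ k, ∑ l, R i j k l * u i * conj (v j) * w k * conj (z l)

section
variable {n : ℕ} (R : Fin n → Fin n → Fin n → Fin n → ℂ)

theorem add1 (u u' v w z : Fin n → ℂ) : QF R (u + u') v w z = QF R u v w z + QF R u' v w z := by
  simp only [QF, ← Finset.sum_add_distrib, Pi.add_apply]
  refine Finset.sum_congr rfl fun i _ => Finset.sum_congr rfl fun j _ =>
    Finset.sum_congr rfl fun k _ => Finset.sum_congr rfl fun l _ => ?_
  ring

theorem add2 (u v v' w z : Fin n → ℂ) : QF R u (v + v') w z = QF R u v w z + QF R u v' w z := by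
  simp only [QF, ← Finset.sum_add_distrib, Pi.add_apply, map_add]
  refine Finset.sum_congr rfl fun i _ => Finset.sum_congr rfl fun j _ =>
    Finset.sum_congr rfl fun k _ => Finset.sum_congr rfl fun l _ => ?_
  ring

theorem add3 (u v w w' z : Fin n → ℂ) : QF R u v (w + w') z = QF R u v w z + QF R u v w' z := by
  simp only [QF, ← Finset.sum_add_distrib, Pi.add_apply]
  refine Finset.sum_congr rfl fun i _ => Finset.sum_congr rfl fun j _ =>
    Finset.sum_congr rfl fun k _ => Finset.sum_congr rfl fun l _ => ?_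
  ring

theorem add4 (u v w z z' : Fin n → ℂ) : QF R u v w (z + z') = QF R u v w z + QF R u v w z' := by
  simp only [QF, ← Finset.sum_add_distrib, Pi.add_apply, map_add]
  refine Finset.sum_congr rfl fun i _ => Finset.sum_congr rfl fun j _ =>
    Finset.sum_congr rfl fun k _ => Finset.sum_congr rfl fun l _ => ?_
  ring

theorem smul1 (c : ℂ) (u v w z : Fin n → ℂ) : QF R (c • u) v w z = c * QF R u v w z := by
  simp only [QF, Finset.mul_sum, Pi.smul_apply, smul_eq_mul]
  refine Finset.sum_congr rfl fun i _ => Finset.sum_congr rfl fun j _ =>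
    Finset.sum_congr rfl fun k _ => Finset.sum_congr rfl fun l _ => ?_
  ring

theorem smul2 (c : ℂ) (u v w z : Fin n → ℂ) : QF R u (c • v) w z = conj c * QF R u v w z := by
  simp only [QF, Finset.mul_sum, Pi.smul_apply, smul_eq_mul, map_mul]
  refine Finset.sum_congr rfl fun i _ => Finset.sum_congr rfl fun j _ =>
    Finset.sum_congr rfl fun k _ => Finset.sum_congr rfl fun l _ => ?_
  ring

theorem smul3 (c : ℂ) (u v w z : Fin n → ℂ) : QF R u v (c • w) z = c * QF R u v w z := by
  simp only [QF, Finset.mul_sum, Pi.smul_apply, smul_eq_mul]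
  refine Finset.sum_congr rfl fun i _ => Finset.sum_congr rfl fun j _ =>
    Finset.sum_congr rfl fun k _ => Finset.sum_congr rfl fun l _ => ?_
  ring

theorem smul4 (c : ℂ) (u v w z : Fin n → ℂ) : QF R u v w (c • z) = conj c * QF R u v w z := by
  simp only [QF, Finset.mul_sum, Pi.smul_apply, smul_eq_mul, map_mul]
  refine Finset.sum_congr rfl fun i _ => Finset.sum_congr rfl fun j _ =>
    Finset.sum_congr rfl fun k _ => Finset.sum_congr rfl fun l _ => ?_
  ring

theorem sym13 (h : ∀ i j k l, R i j k l = R k j i l) (u v w z : Fin n → ℂ) :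
    QF R u v w z = QF R w v u z := by
  unfold QF
  have e1 : ∀ (G : Fin n → Fin n → Fin n → Fin n → ℂ),
      (∑ i, ∑ j, ∑ k, ∑ l, G i j k l) = ∑ k, ∑ j, ∑ i, ∑ l, G i j k l := by
    intro G
    calc (∑ i, ∑ j, ∑ k, ∑ l, G i j k l) = ∑ j, ∑ i, ∑ k, ∑ l, G i j k l := Finset.sum_comm
      _ = ∑ j, ∑ k, ∑ i, ∑ l, G i j k l := by
          refine Finset.sum_congr rfl fun j _ => Finset.sum_comm
      _ = ∑ k, ∑ j, ∑ i, ∑ l, G i j k l := Finset.sum_comm
  rw [e1]
  refine Finset.sum_congr rfl fun i _ => Finset.sum_congr rfl fun j _ =>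
    Finset.sum_congr rfl fun k _ => Finset.sum_congr rfl fun l _ => ?_
  rw [h]
  ring

theorem sym24 (h : ∀ i j k l, R i j k l = R i l k j) (u v w z : Fin n → ℂ) :
    QF R u v w z = QF R u z w v := by
  unfold QF
  refine Finset.sum_congr rfl fun i _ => ?_
  have e1 : ∀ (G : Fin n → Fin n → Fin n → ℂ),
      (∑ j, ∑ k, ∑ l, G j k l) = ∑ l, ∑ k, ∑ j, G j k l := by
    intro G
    calc (∑ j, ∑ k, ∑ l, G j k l) = ∑ k, ∑ j, ∑ l, G j k l := Finset.sum_comm
      _ = ∑ k, ∑ l, ∑ j, G j k l := by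
          refine Finset.sum_congr rfl fun j _ => Finset.sum_comm
      _ = ∑ l, ∑ k, ∑ j, G j k l := Finset.sum_comm
  rw [e1]
  refine Finset.sum_congr rfl fun j _ =>
    Finset.sum_congr rfl fun k _ => Finset.sum_congr rfl fun l _ => ?_
  rw [h]
  ring

/-- The induction quantity. -/
noncomputable def Phi {ι : Type*} (e : ι → Fin n → ℂ) (f : Fin n → ℂ) (s : Finset ι) : ℂ :=
  QF R f f f f + 4 * ∑ a ∈ s, QF R f f (e a) (e a) +
    2 * ∑ a ∈ s, ∑ b ∈ s, QF R (e a) (e a) (e b) (e b) - ∑ a ∈ s, QF R (e a) (e a) (e a) (e a)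

theorem avg4 (h13 : ∀ i j k l, R i j k l = R k j i l) (h24 : ∀ i j k l, R i j k l = R i l k j)
    (f c : Fin n → ℂ) :
    QF R (f + (1 : ℂ) • c) (f + (1 : ℂ) • c) (f + (1 : ℂ) • c) (f + (1 : ℂ) • c) +
    QF R (f + I • c) (f + I • c) (f + I • c) (f + I • c) +
    QF R (f + (-1 : ℂ) • c) (f + (-1 : ℂ) • c) (f + (-1 : ℂ) • c) (f + (-1 : ℂ) • c) +
    QF R (f + (-I) • c) (f + (-I) • c) (f + (-I) • c) (f + (-I) • c) =
      4 * (QF R f f f f + QF R c c c c + 4 * QF R f f c c) := by
  have s1 : QF R c f f c = QF R f f c c := sym13 R h13 _ _ _ _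
  have s2 : QF R f c c f = QF R f f c c := sym24 R h24 _ _ _ _
  have s3 : QF R c c f f = QF R f f c c := by rw [sym13 R h13, s2]
  simp only [add1, add2, add3, add4, smul1, smul2, smul3, smul4, map_one, map_neg, conj_I, s1, s2,
    s3]
  have hI : I ^ 2 = -1 := I_sq
  have hI4 : I ^ 4 = 1 := by rw [show (4 : ℕ) = 2 * 2 from rfl, pow_mul, hI]; ring
  ring_nf
  simp only [hI, hI4]
  ring

theorem avg2 (f c a : Fin n → ℂ) :
    QF R (f + (1 : ℂ) • c) (f + (1 : ℂ) • c) a a +
    QF R (f + I • c) (f + I • c) a a +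
    QF R (f + (-1 : ℂ) • c) (f + (-1 : ℂ) • c) a a +
    QF R (f + (-I) • c) (f + (-I) • c) a a =
      4 * (QF R f f a a + QF R c c a a) := by
  simp only [add1, add2, smul1, smul2, map_one, map_neg, conj_I]
  have hI : I ^ 2 = -1 := I_sq
  ring_nf
  simp only [hI]
  ring

theorem phi_le (h13 : ∀ i j k l, R i j k l = R k j i l) (h24 : ∀ i j k l, R i j k l = R i l k j)
    (hneg : ∀ v, (QF R v v v v).re ≤ 0) {ι : Type*} (e : ι → Fin n → ℂ)
    (s : Finset ι) : ∀ f, (Phi R e f s).re ≤ 0 := by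
  classical
  induction s using Finset.induction_on with
  | empty => intro f; simpa [Phi] using hneg f
  | insert c s hc ih =>
    intro f
    have key : Phi R e (f + (1 : ℂ) • e c) s + Phi R e (f + I • e c) s +
        Phi R e (f + (-1 : ℂ) • e c) s + Phi R e (f + (-I) • e c) s =
        4 * Phi R e f (insert c s) := by
      have h1 := avg4 R h13 h24 f (e c)
      have h2 : (∑ a ∈ s, QF R (f + (1 : ℂ) • e c) (f + (1 : ℂ) • e c) (e a) (e a)) +
          (∑ a ∈ s, QF R (f + I • e c) (f + I • e c) (e a) (e a)) +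
          (∑ a ∈ s, QF R (f + (-1 : ℂ) • e c) (f + (-1 : ℂ) • e c) (e a) (e a)) +
          (∑ a ∈ s, QF R (f + (-I) • e c) (f + (-I) • e c) (e a) (e a)) =
          4 * ((∑ a ∈ s, QF R f f (e a) (e a)) + ∑ a ∈ s, QF R (e c) (e c) (e a) (e a)) := by
        rw [← Finset.sum_add_distrib, ← Finset.sum_add_distrib, ← Finset.sum_add_distrib,
          ← Finset.sum_add_distrib, Finset.mul_sum]
        exact Finset.sum_congr rfl fun a _ => avg2 R f (e c) (e a)
      have h3 : ∀ a, QF R (e a) (e a) (e c) (e c) = QF R (e c) (e c) (e a) (e a) := by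
        intro a
        rw [sym13 R h13, sym24 R h24]
      have h4 : ∑ a ∈ insert c s, ∑ b ∈ insert c s, QF R (e a) (e a) (e b) (e b) =
          QF R (e c) (e c) (e c) (e c) + 2 * (∑ a ∈ s, QF R (e c) (e c) (e a) (e a)) +
          ∑ a ∈ s, ∑ b ∈ s, QF R (e a) (e a) (e b) (e b) := by
        rw [Finset.sum_insert hc, Finset.sum_insert hc]
        have : ∀ a ∈ s, ∑ b ∈ insert c s, QF R (e a) (e a) (e b) (e b) =
            QF R (e c) (e c) (e a) (e a) + ∑ b ∈ s, QF R (e a) (e a) (e b) (e b) := by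
          intro a _
          rw [Finset.sum_insert hc, h3]
        rw [Finset.sum_congr rfl this, Finset.sum_add_distrib]
        ring
      unfold Phi
      rw [h4, Finset.sum_insert hc, Finset.sum_insert hc]
      linear_combination h1 + 4 * h2
    have h5 := congrArg Complex.re key
    simp only [Complex.add_re, Complex.mul_re] at h5
    have h6 := ih (f + (1 : ℂ) • e c)
    have h7 := ih (f + I • e c)
    have h8 := ih (f + (-1 : ℂ) • e c)
    have h9 := ih (f + (-I) • e c)
    have h10 : ((4 : ℂ).re = 4) := by norm_num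
    have h11 : ((4 : ℂ).im = 0) := by norm_num
    rw [h10, h11] at h5
    linarith

theorem zero1 (v w z : Fin n → ℂ) : QF R 0 v w z = 0 := by
  simp [QF]

/-- The pairing with matrices which are sums of rank one matrices. -/
theorem pair_eq {ι : Type*} [Fintype ι] (e : ι → Fin n → ℂ) (f : Fin n → ℂ)
    (K : Matrix (Fin n) (Fin n) ℂ)
    (hK : ∀ j i, K j i = conj (f j) * f i + ∑ a, conj (e a j) * e a i)
    (h13 : ∀ i j k l, R i j k l = R k j i l) (h24 : ∀ i j k l, R i j k l = R i l k j) :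
    ∑ i, ∑ j, ∑ k, ∑ l, K j i * K l k * R i j k l =
      QF R f f f f + 2 * ∑ a, QF R f f (e a) (e a) + ∑ a, ∑ b, QF R (e a) (e a) (e b) (e b) := by
  have hA : ∀ (u : Fin n → ℂ), ∑ i, ∑ j, ∑ k, ∑ l, conj (u j) * u i * K l k * R i j k l =
      QF R u u f f + ∑ b, QF R u u (e b) (e b) := by
    intro u
    have : ∀ i j k l, conj (u j) * u i * K l k * R i j k l =
        R i j k l * u i * conj (u j) * f k * conj (f l) +
        ∑ b, R i j k l * u i * conj (u j) * e b k * conj (e b l) := by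
      intro i j k l
      rw [hK, mul_add, add_mul, Finset.mul_sum, Finset.sum_mul]
      congr 1
      · ring
      · refine Finset.sum_congr rfl fun b _ => ?_
        ring
    simp only [this, Finset.sum_add_distrib]
    congr 1
    simp only [QF]
    symm
    rw [Finset.sum_comm]
    refine Finset.sum_congr rfl fun i _ => ?_
    rw [Finset.sum_comm]
    refine Finset.sum_congr rfl fun j _ => ?_
    rw [Finset.sum_comm]
    refine Finset.sum_congr rfl fun k _ => ?_
    rw [Finset.sum_comm]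
  have hB : ∑ i, ∑ j, ∑ k, ∑ l, K j i * K l k * R i j k l =
      (∑ i, ∑ j, ∑ k, ∑ l, conj (f j) * f i * K l k * R i j k l) +
      ∑ a, ∑ i, ∑ j, ∑ k, ∑ l, conj (e a j) * e a i * K l k * R i j k l := by
    have : ∀ i j k l, K j i * K l k * R i j k l =
        conj (f j) * f i * K l k * R i j k l +
        ∑ a, conj (e a j) * e a i * K l k * R i j k l := by
      intro i j k l
      rw [hK j i, add_mul, add_mul, Finset.sum_mul, Finset.sum_mul]
    simp only [this, Finset.sum_add_distrib]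
    congr 1
    symm
    rw [Finset.sum_comm]
    refine Finset.sum_congr rfl fun i _ => ?_
    rw [Finset.sum_comm]
    refine Finset.sum_congr rfl fun j _ => ?_
    rw [Finset.sum_comm]
    refine Finset.sum_congr rfl fun k _ => ?_
    rw [Finset.sum_comm]
  rw [hB, hA]
  simp only [hA, Finset.sum_add_distrib]
  have h3 : ∀ a, QF R (e a) (e a) f f = QF R f f (e a) (e a) := by
    intro a
    rw [sym13 R h13, sym24 R h24]
  simp only [h3]
  ring

theorem main_le (h13 : ∀ i j k l, R i j k l = R k j i l) (h24 : ∀ i j k l, R i j k l = R i l k j)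
    (hneg : ∀ v, (QF R v v v v).re ≤ 0) (K : Matrix (Fin n) (Fin n) ℂ) (f : Fin n → ℂ)
    (hP : (K - Matrix.vecMulVec (fun i => conj (f i)) f).PosSemidef) :
    2 * (∑ i, ∑ j, ∑ k, ∑ l, K j i * K l k * R i j k l).re ≤ (QF R f f f f).re := by
  obtain ⟨B, hB⟩ : ∃ B : Matrix (Fin n) (Fin n) ℂ,
      K - Matrix.vecMulVec (fun i => conj (f i)) f = Bᴴ * B := by
    open scoped MatrixOrder in
    exact CStarAlgebra.nonneg_iff_eq_star_mul_self.mp hP.nonneg
  have hK : ∀ j i, K j i = conj (f j) * f i + ∑ a, conj (B a j) * B a i := by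
    intro j i
    have := congrFun (congrFun hB j) i
    simp only [Matrix.sub_apply, Matrix.vecMulVec_apply, Matrix.mul_apply,
      Matrix.conjTranspose_apply] at this
    rw [sub_eq_iff_eq_add] at this
    rw [this, add_comm]
    rfl
  rw [pair_eq R B f K hK h13 h24]
  have h1 := phi_le R h13 h24 hneg (ι := Fin n) B Finset.univ f
  have h2 : ∀ a, (QF R (B a) (B a) (B a) (B a)).re ≤ 0 := fun a => hneg _
  have h3 : (∑ a, QF R (B a) (B a) (B a) (B a)).re ≤ 0 := by
    rw [Complex.re_sum]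
    exact Finset.sum_nonpos fun a _ => h2 a
  have h4 : 2 * (QF R f f f f + 2 * ∑ a, QF R f f (B a) (B a) +
      ∑ a, ∑ b, QF R (B a) (B a) (B b) (B b)) =
      Phi R B f Finset.univ + QF R f f f f + ∑ a, QF R (B a) (B a) (B a) (B a) := by
    unfold Phi
    ring
  have h5 := congrArg Complex.re h4
  simp only [Complex.add_re, Complex.mul_re] at h5 h1 h3 ⊢
  have h10 : ((2 : ℂ).re = 2) := by norm_num
  have h11 : ((2 : ℂ).im = 0) := by norm_num
  rw [h10, h11] at h5 ⊢
  linarith

end

theorem sgn (hCSY : S_CSY) : S_SGN := by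
  intro n W hW H hpos hCH hN
  have key : ∀ x ∈ W, ∀ (K : Matrix (Fin n) (Fin n) ℂ) (f : Cn n),
      (K - Matrix.vecMulVec (fun i => conj (f i)) f).PosSemidef →
      2 * (crvP H K K x).re ≤
        (∑ i, ∑ j, ∑ k, ∑ l, crv H x i j k l * f i * conj (f j) * f k * conj (f l)).re := by
    intro x hx K f hP
    obtain ⟨_, _, h3⟩ := hCSY W hW H hpos hCH.smooth x hx
    obtain ⟨h4, _⟩ := h3 hCH
    exact main_le (crv H x) (fun i j k l => (h4 i j k l).1) (fun i j k l => (h4 i j k l).2)
      (fun v => hN x hx v) K f hP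
  refine ⟨key, fun x hx K hK => ?_⟩
  have h1 := key x hx K 0 (by
    have : K - Matrix.vecMulVec (fun i => conj ((0 : Cn n) i)) (0 : Cn n) = K := by
      ext a b
      simp
    rw [this]
    exact hK)
  simp only [Pi.zero_apply, mul_zero, zero_mul, Finset.sum_const_zero, Complex.zero_re] at h1
  linarith

end Pool.Agent.Helper16.HS.SGNP
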